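import Mathlib

set_option autoImplicit false

namespace Pool.Agent.Results.MP_188fab_co.Q1

open MvPolynomial

/-- pairs (edge `{i,j}` of `G`, edge `{k,l}` of `H`), each edge written in increasing order -/
def Gen {n m : ℕ} (G : SimpleGraph (Fin n)) (H : SimpleGraph (Fin m)) : Type :=
  {p : (Fin n × Fin n) × (Fin m × Fin m) //
    p.1.1 < p.1.2 ∧ G.Adj p.1.1 p.1.2 ∧ p.2.1 < p.2.2 ∧ H.Adj p.2.1 p.2.2}

/-- the binomial `x_{i,k} x_{j,l} - x_{i,l} x_{j,k}` -/
noncomputable def binom (F : Type) [Field F] {n m : ℕ} (G : SimpleGraph (Fin n))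
    (H : SimpleGraph (Fin m)) (e : Gen G H) : MvPolynomial (Fin n × Fin m) F :=
  X (e.1.1.1, e.1.2.1) * X (e.1.1.2, e.1.2.2) - X (e.1.1.1, e.1.2.2) * X (e.1.1.2, e.1.2.1)

/-- the Jacobian matrix of the binomials, over the rational function field -/
noncomputable def jac (F : Type) [Field F] {n m : ℕ} (G : SimpleGraph (Fin n))
    (H : SimpleGraph (Fin m)) :
    Matrix (Gen G H) (Fin n × Fin m) (FractionRing (MvPolynomial (Fin n × Fin m) F)) :=
  fun e v => algebraMap (MvPolynomial (Fin n × Fin m) F) _ (pderiv v (binom F G H e))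

/-- analytic spread: Krull dimension of `⨁ I^t / 𝔪 I^t`, the Rees algebra `⨁ I^t` modulo the ideal
generated by the graded maximal ideal `𝔪 = (x_s)` -/
noncomputable def spread {F σ : Type} [Field F] (I : Ideal (MvPolynomial σ F)) : WithBot ℕ∞ :=
  ringKrullDim (reesAlgebra I ⧸
    Ideal.map (algebraMap (MvPolynomial σ F) (reesAlgebra I)) (Ideal.span (Set.range X)))

/-! ### analytic spread of an ideal generated by quadrics -/

section spread

variable {F σ ι : Type} [Field F]

noncomputable def psi : MvPolynomial σ F →+* Polynomial (MvPolynomial σ F) :=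
  eval₂Hom (Polynomial.C.comp C) (fun s => Polynomial.X * Polynomial.C (X s))

theorem psi_eval (r : MvPolynomial σ F) : (psi r).eval 0 = C (constantCoeff r) := by
  induction r using MvPolynomial.induction_on with
  | C a => simp [psi]
  | add p q hp hq => simp [hp, hq]
  | mul_X p i hp => simp [psi]

noncomputable def Phi :
    Polynomial (MvPolynomial σ F) →+* LaurentPolynomial (MvPolynomial σ F) :=
  Polynomial.eval₂RingHom (Polynomial.toLaurent.comp psi) (LaurentPolynomial.T (-2))

theorem key (f : ι → MvPolynomial σ F)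
    (hf : ∀ i, psi (f i) = Polynomial.C (f i) * Polynomial.X ^ 2)
    (p : Polynomial (MvPolynomial σ F)) (hp : p ∈ reesAlgebra (Ideal.span (Set.range f))) :
    ∃ q : Polynomial (MvPolynomial σ F), Polynomial.toLaurent q = Phi p ∧
      q.eval 0 ∈ Algebra.adjoin F (Set.range f) := by
  have hC : ∀ r : MvPolynomial σ F, (psi r).eval 0 ∈ Algebra.adjoin F (Set.range f) := by
    intro r
    rw [psi_eval]
    exact Subalgebra.algebraMap_mem _ _
  rw [← adjoin_monomial_eq_reesAlgebra] at hp
  induction hp using Algebra.adjoin_induction with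
  | mem x hx =>
    obtain ⟨r, hr, rfl⟩ := hx
    induction hr using Submodule.span_induction with
    | mem y hy =>
      obtain ⟨i, rfl⟩ := hy
      refine ⟨Polynomial.C (f i), ?_, by
        rw [Polynomial.eval_C]; exact Algebra.subset_adjoin ⟨i, rfl⟩⟩
      simp only [Phi, Polynomial.coe_eval₂RingHom, Polynomial.eval₂_monomial, RingHom.comp_apply,
        hf, map_mul, Polynomial.toLaurent_X_pow, pow_one, mul_assoc, ← LaurentPolynomial.T_add]
      simp
    | zero => exact ⟨0, by simp, by simp⟩
    | add x y _ _ hx hy =>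
      obtain ⟨q1, h1, h1'⟩ := hx
      obtain ⟨q2, h2, h2'⟩ := hy
      exact ⟨q1 + q2, by simp [h1, h2], by simpa using add_mem h1' h2'⟩
    | smul a x _ hx =>
      obtain ⟨q1, h1, h1'⟩ := hx
      refine ⟨psi a * q1, ?_, by simpa using mul_mem (hC a) h1'⟩
      rw [map_mul, h1, smul_eq_mul, ← Polynomial.C_mul_monomial, map_mul]
      simp [Phi]
  | algebraMap r => exact ⟨psi r, by simp [Phi], hC r⟩
  | add x y _ _ hx hy =>
    obtain ⟨q1, h1, h1'⟩ := hx
    obtain ⟨q2, h2, h2'⟩ := hy
    exact ⟨q1 + q2, by simp [h1, h2], by simpa using add_mem h1' h2'⟩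
  | mul x y _ _ hx hy =>
    obtain ⟨q1, h1, h1'⟩ := hx
    obtain ⟨q2, h2, h2'⟩ := hy
    exact ⟨q1 * q2, by simp [h1, h2], by simpa using mul_mem h1' h2'⟩

theorem spread_ge [Finite ι] (f : ι → MvPolynomial σ F)
    (hf : ∀ i, psi (f i) = Polynomial.C (f i) * Polynomial.X ^ 2)
    (hi : AlgebraicIndependent F f) :
    (Nat.card ι : WithBot ℕ∞) ≤ spread (Ideal.span (Set.range f)) := by
  choose q hq hq' using key f hf
  let φ : reesAlgebra (Ideal.span (Set.range f)) →+* Algebra.adjoin F (Set.range f) :=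
    { toFun := fun p => ⟨(q p.1 p.2).eval 0, hq' _ _⟩
      map_one' := by
        have : q _ (1 : reesAlgebra (Ideal.span (Set.range f))).2 = 1 :=
          Polynomial.toLaurent_injective (by rw [hq]; simp)
        exact Subtype.ext ((congrArg (Polynomial.eval 0) this).trans Polynomial.eval_one)
      map_zero' := by
        have : q _ (0 : reesAlgebra (Ideal.span (Set.range f))).2 = 0 :=
          Polynomial.toLaurent_injective (by rw [hq]; simp)
        exact Subtype.ext ((congrArg (Polynomial.eval 0) this).trans Polynomial.eval_zero)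
      map_mul' := fun a b => by
        have : q _ (a * b).2 = q _ a.2 * q _ b.2 :=
          Polynomial.toLaurent_injective (by rw [map_mul, hq, hq, hq]; simp)
        exact Subtype.ext ((congrArg (Polynomial.eval 0) this).trans Polynomial.eval_mul)
      map_add' := fun a b => by
        have : q _ (a + b).2 = q _ a.2 + q _ b.2 :=
          Polynomial.toLaurent_injective (by rw [map_add, hq, hq, hq]; simp)
        exact Subtype.ext ((congrArg (Polynomial.eval 0) this).trans Polynomial.eval_add) }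
  have hφC : ∀ r : MvPolynomial σ F,
      (φ (algebraMap (MvPolynomial σ F) _ r) : MvPolynomial σ F) = C (constantCoeff r) := by
    intro r
    have : q _ (algebraMap (MvPolynomial σ F)
        (reesAlgebra (Ideal.span (Set.range f))) r).2 = psi r :=
      Polynomial.toLaurent_injective (by rw [hq]; simp [Phi])
    show (q _ _).eval 0 = _
    rw [this, psi_eval]
  have hsurj : Function.Surjective φ := by
    rintro ⟨y, hy⟩
    induction hy using Algebra.adjoin_induction with
    | mem x hx =>
      obtain ⟨i, rfl⟩ := hx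
      have hm : Polynomial.monomial 1 (f i) ∈ reesAlgebra (Ideal.span (Set.range f)) :=
        reesAlgebra.monomial_mem.mpr (by rw [pow_one]; exact Ideal.subset_span ⟨i, rfl⟩)
      refine ⟨⟨_, hm⟩, Subtype.ext ?_⟩
      have : q _ hm = Polynomial.C (f i) := by
        refine Polynomial.toLaurent_injective ?_
        rw [hq]
        simp only [Phi, Polynomial.coe_eval₂RingHom, Polynomial.eval₂_monomial, RingHom.comp_apply,
          hf, map_mul, Polynomial.toLaurent_X_pow, pow_one, mul_assoc, ← LaurentPolynomial.T_add]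
        simp
      show (q _ hm).eval 0 = _
      rw [this]
      simp
    | algebraMap r =>
      refine ⟨algebraMap (MvPolynomial σ F) _ (C r), Subtype.ext ?_⟩
      rw [hφC]
      simp
    | add x y _ _ hx hy =>
      obtain ⟨a, ha⟩ := hx
      obtain ⟨b, hb⟩ := hy
      exact ⟨a + b, by rw [map_add, ha, hb]; rfl⟩
    | mul x y _ _ hx hy =>
      obtain ⟨a, ha⟩ := hx
      obtain ⟨b, hb⟩ := hy
      exact ⟨a * b, by rw [map_mul, ha, hb]; rfl⟩
  have hker : Ideal.map (algebraMap (MvPolynomial σ F) (reesAlgebra (Ideal.span (Set.range f))))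
      (Ideal.span (Set.range X)) ≤ RingHom.ker φ := by
    rw [Ideal.map_span, Ideal.span_le]
    rintro _ ⟨_, ⟨s, rfl⟩, rfl⟩
    refine Subtype.ext ?_
    rw [hφC]
    simp
  have hker' : ∀ a ∈ Ideal.map
      (algebraMap (MvPolynomial σ F) (reesAlgebra (Ideal.span (Set.range f))))
      (Ideal.span (Set.range X)), φ a = 0 := fun a ha => hker ha
  have h1 : ringKrullDim (Algebra.adjoin F (Set.range f)) ≤ spread (Ideal.span (Set.range f)) :=
    @ringKrullDim_le_of_surjective _ _ _ _ (Ideal.Quotient.lift _ φ hker')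
      (Ideal.Quotient.lift_surjective_of_surjective _ hker' hsurj)
  rw [← ringKrullDim_eq_of_ringEquiv hi.aevalEquiv.toRingEquiv,
    MvPolynomial.ringKrullDim_of_isNoetherianRing, ringKrullDim_eq_zero_of_field, zero_add] at h1
  exact h1

end spread

/-! ### the case of two triangles in characteristic two -/

abbrev K3 : SimpleGraph (Fin 3) := ⊤

abbrev R := MvPolynomial (Fin 3 × Fin 3) (ZMod 2)

instance : Fintype (Gen K3 K3) := by unfold Gen; infer_instance

theorem card_gen : Fintype.card (Gen K3 K3) = 9 := by decide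

noncomputable def mn (i j k l : Fin 3) : R := X (i, k) * X (j, l) - X (i, l) * X (j, k)

noncomputable def D : R :=
  X (0, 0) * mn 1 2 1 2 - X (0, 1) * mn 1 2 0 2 + X (0, 2) * mn 1 2 0 1

theorem indep : AlgebraicIndependent (ZMod 2) (binom (ZMod 2) K3 K3) := by
  set A := Algebra.adjoin (ZMod 2) (Set.range (binom (ZMod 2) K3 K3)) with hA
  have hm : ∀ i j k l : Fin 3, i < j → k < l → mn i j k l ∈ A := fun i j k l h1 h2 =>
    Algebra.subset_adjoin ⟨⟨((i, j), (k, l)), h1, h1.ne, h2, h2.ne⟩, rfl⟩
  have m1 := hm 0 1 0 1 (by decide) (by decide)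
  have m2 := hm 0 1 0 2 (by decide) (by decide)
  have m3 := hm 0 1 1 2 (by decide) (by decide)
  have m4 := hm 0 2 0 1 (by decide) (by decide)
  have m5 := hm 0 2 0 2 (by decide) (by decide)
  have m6 := hm 0 2 1 2 (by decide) (by decide)
  have m7 := hm 1 2 0 1 (by decide) (by decide)
  have m8 := hm 1 2 0 2 (by decide) (by decide)
  have m9 := hm 1 2 1 2 (by decide) (by decide)
  have hD : D ≠ 0 := by
    intro h
    have := congrArg (eval (fun p : Fin 3 × Fin 3 => if p.1 = p.2 then (1 : ZMod 2) else 0)) h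
    simp [D, mn] at this
  have hD2 : D ^ 2 ∈ A := by
    have : D ^ 2 = mn 0 1 0 1 * (mn 0 2 0 2 * mn 1 2 1 2 - mn 0 2 1 2 * mn 1 2 0 2)
        - mn 0 1 0 2 * (mn 0 2 0 1 * mn 1 2 1 2 - mn 0 2 1 2 * mn 1 2 0 1)
        + mn 0 1 1 2 * (mn 0 2 0 1 * mn 1 2 0 2 - mn 0 2 0 2 * mn 1 2 0 1) := by
      simp only [D, mn]; ring
    rw [this]
    exact add_mem (sub_mem (mul_mem m1 (sub_mem (mul_mem m5 m9) (mul_mem m6 m8)))
      (mul_mem m2 (sub_mem (mul_mem m4 m9) (mul_mem m6 m7))))
      (mul_mem m3 (sub_mem (mul_mem m4 m8) (mul_mem m5 m7)))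
  have hXD : ∀ v, X v * D ∈ A := by
    rintro ⟨a, b⟩
    fin_cases a <;> fin_cases b
    · have : X (0, 0) * D = mn 0 1 0 1 * mn 0 2 0 2 - mn 0 1 0 2 * mn 0 2 0 1 := by
        simp only [D, mn]; ring
      exact (congrArg (· ∈ A) this).mpr (sub_mem (mul_mem m1 m5) (mul_mem m2 m4))
    · have : X (0, 1) * D = mn 0 1 0 1 * mn 0 2 1 2 - mn 0 1 1 2 * mn 0 2 0 1 := by
        simp only [D, mn]; ring
      exact (congrArg (· ∈ A) this).mpr (sub_mem (mul_mem m1 m6) (mul_mem m3 m4))
    · have : X (0, 2) * D = mn 0 1 0 2 * mn 0 2 1 2 - mn 0 1 1 2 * mn 0 2 0 2 := by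
        simp only [D, mn]; ring
      exact (congrArg (· ∈ A) this).mpr (sub_mem (mul_mem m2 m6) (mul_mem m3 m5))
    · have : X (1, 0) * D = mn 0 1 0 1 * mn 1 2 0 2 - mn 0 1 0 2 * mn 1 2 0 1 := by
        simp only [D, mn]; ring
      exact (congrArg (· ∈ A) this).mpr (sub_mem (mul_mem m1 m8) (mul_mem m2 m7))
    · have : X (1, 1) * D = mn 0 1 0 1 * mn 1 2 1 2 - mn 0 1 1 2 * mn 1 2 0 1 := by
        simp only [D, mn]; ring
      exact (congrArg (· ∈ A) this).mpr (sub_mem (mul_mem m1 m9) (mul_mem m3 m7))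
    · have : X (1, 2) * D = mn 0 1 0 2 * mn 1 2 1 2 - mn 0 1 1 2 * mn 1 2 0 2 := by
        simp only [D, mn]; ring
      exact (congrArg (· ∈ A) this).mpr (sub_mem (mul_mem m2 m9) (mul_mem m3 m8))
    · have : X (2, 0) * D = mn 0 2 0 1 * mn 1 2 0 2 - mn 0 2 0 2 * mn 1 2 0 1 := by
        simp only [D, mn]; ring
      exact (congrArg (· ∈ A) this).mpr (sub_mem (mul_mem m4 m8) (mul_mem m5 m7))
    · have : X (2, 1) * D = mn 0 2 0 1 * mn 1 2 1 2 - mn 0 2 1 2 * mn 1 2 0 1 := by
        simp only [D, mn]; ring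
      exact (congrArg (· ∈ A) this).mpr (sub_mem (mul_mem m4 m9) (mul_mem m6 m7))
    · have : X (2, 2) * D = mn 0 2 0 2 * mn 1 2 1 2 - mn 0 2 1 2 * mn 1 2 0 2 := by
        simp only [D, mn]; ring
      exact (congrArg (· ∈ A) this).mpr (sub_mem (mul_mem m5 m9) (mul_mem m6 m8))
  have hx : ∀ v, IsAlgebraic A (X v : R) := by
    intro v
    refine ⟨Polynomial.C ⟨_, hD2⟩ * Polynomial.X ^ 2 - Polynomial.C (⟨_, hXD v⟩ ^ 2), ?_, ?_⟩
    · intro h
      have := congrArg (fun p => Polynomial.coeff p 2) h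
      simp only [Polynomial.coeff_sub, Polynomial.coeff_C_mul_X_pow, Polynomial.coeff_C] at this
      simp at this
      exact pow_ne_zero 2 hD (congrArg Subtype.val this)
    · simp only [map_sub, map_mul, Polynomial.aeval_C, map_pow, Polynomial.aeval_X]
      show D ^ 2 * X v ^ 2 - (X v * D) ^ 2 = 0
      ring
  have : Algebra.IsAlgebraic A R := by
    constructor
    intro p
    induction p using MvPolynomial.induction_on with
    | C a => exact isAlgebraic_algebraMap (R := A) (algebraMap (ZMod 2) _ a)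
    | add p q hp hq => exact hp.add hq
    | mul_X p i hp => exact hp.mul (hx i)
  exact (Algebra.IsAlgebraic.isTranscendenceBasis_of_le_trdeg_of_finite (ZMod 2) _
    (by rw [MvPolynomial.trdeg_of_isDomain]; simp [card_gen])).1

theorem rank_lt : (jac (ZMod 2) K3 K3).rank < 9 := by
  have h := LinearMap.finrank_range_add_finrank_ker (jac (ZMod 2) K3 K3).mulVecLin
  have hv : (fun v => algebraMap R (FractionRing R) (X v))
      ∈ LinearMap.ker (jac (ZMod 2) K3 K3).mulVecLin := by
    rw [LinearMap.mem_ker]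
    funext e
    have hh : (binom (ZMod 2) K3 K3 e).IsHomogeneous 2 :=
      ((isHomogeneous_X _ _).mul (isHomogeneous_X _ _)).sub
        ((isHomogeneous_X _ _).mul (isHomogeneous_X _ _))
    have h2 := congrArg (algebraMap R (FractionRing R)) hh.sum_X_mul_pderiv
    rw [two_smul, CharTwo.add_self_eq_zero, map_zero, map_sum] at h2
    simp only [Matrix.mulVecLin_apply, Matrix.mulVec, dotProduct, jac, Pi.zero_apply]
    rw [← h2]
    exact Finset.sum_congr rfl fun v _ => by rw [map_mul, mul_comm]
  have hpos : 0 < Module.finrank (FractionRing R)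
      (LinearMap.ker (jac (ZMod 2) K3 K3).mulVecLin) := by
    rw [Module.finrank_pos_iff_exists_ne_zero]
    refine ⟨⟨_, hv⟩, fun h0 => ?_⟩
    have := congrFun (congrArg Subtype.val h0) (0, 0)
    simp at this
  simp only [Module.finrank_fintype_fun_eq_card, Fintype.card_prod, Fintype.card_fin] at h
  have h9 : (jac (ZMod 2) K3 K3).rank + Module.finrank (FractionRing R)
      (LinearMap.ker (jac (ZMod 2) K3 K3).mulVecLin) = 9 := h
  omega

/-- Over some field and for some graphs without isolated vertices, the rank of the Jacobian matrix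
of the binomials differs from the analytic spread of the ideal they generate. -/
theorem result : ∃ (F : Type) (_ : Field F) (n m : ℕ) (G : SimpleGraph (Fin n))
    (H : SimpleGraph (Fin m)), (∀ v, ∃ w, G.Adj v w) ∧ (∀ v, ∃ w, H.Adj v w) ∧
    ((jac F G H).rank : WithBot ℕ∞) < spread (Ideal.span (Set.range (binom F G H))) := by
  refine ⟨ZMod 2, inferInstance, 3, 3, K3, K3, by decide, by decide, ?_⟩
  have h := spread_ge (binom (ZMod 2) K3 K3) (fun e => by
    simp only [binom, psi, map_sub, map_mul, eval₂Hom_X']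
    ring) indep
  rw [Nat.card_eq_fintype_card, card_gen] at h
  exact lt_of_lt_of_le (by exact_mod_cast rank_lt) h

end Pool.Agent.Results.MP_188fab_co.Q1
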