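import Mathlib

set_option autoImplicit false

namespace Pool.Agent.Results.MP_188fab_co.Q2

open MvPolynomial

universe u v

abbrev R := MvPolynomial (Fin 4) (ZMod 2)

noncomputable def g : Fin 14 → R :=
  ![X 0 ^ 2, X 1 ^ 2, X 2 ^ 2, X 3 ^ 2, X 0 * X 1, X 0 * X 2, X 0 * X 3, X 1 * X 2, X 1 * X 3,
    X 2 * X 3, X 0 ^ 2 + X 1 ^ 2, X 0 ^ 2 + X 2 ^ 2, X 1 ^ 2 + X 2 ^ 2,
    X 0 ^ 2 + X 1 ^ 2 + X 2 ^ 2]

theorem dep {k : ℕ} (u : Fin k → R) (P : MvPolynomial (Fin k) (ZMod 2)) (pt : Fin k → ZMod 2)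
    (h1 : aeval u P = 0) (h2 : eval pt P ≠ 0) : ¬ AlgebraicIndependent (ZMod 2) u := by
  intro h
  rw [algebraicIndependent_iff] at h
  rw [h P h1] at h2
  simp at h2

theorem base (u : Fin 4 → R) (P Q : Fin 4 → R) (h1 : ∀ i, aeval u (P i) ≠ 0)
    (h2 : ∀ i, aeval u (P i) * X i ^ 2 = aeval u (Q i)) : AlgebraicIndependent (ZMod 2) u := by
  have hm : ∀ p : R, aeval u p ∈ Algebra.adjoin (ZMod 2) (Set.range u) := by
    intro p
    rw [Algebra.adjoin_range_eq_range_aeval]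
    exact ⟨p, rfl⟩
  have hx : ∀ i, IsAlgebraic (Algebra.adjoin (ZMod 2) (Set.range u)) (X i : R) := by
    intro i
    refine ⟨Polynomial.C ⟨_, hm (P i)⟩ * Polynomial.X ^ 2 - Polynomial.C ⟨_, hm (Q i)⟩, ?_, ?_⟩
    · intro h
      have := congrArg (fun p => Polynomial.coeff p 2) h
      simp at this
      exact h1 i (congrArg Subtype.val this)
    · simp only [map_sub, map_mul, Polynomial.aeval_C, map_pow, Polynomial.aeval_X]
      exact sub_eq_zero.mpr (h2 i)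
  have : Algebra.IsAlgebraic (Algebra.adjoin (ZMod 2) (Set.range u)) R := by
    constructor
    intro p
    induction p using MvPolynomial.induction_on with
    | C a =>
      exact isAlgebraic_algebraMap (R := Algebra.adjoin (ZMod 2) (Set.range u))
        (algebraMap (ZMod 2) _ a)
    | add p q hp hq => exact hp.add hq
    | mul_X p i hp => exact hp.mul (hx i)
  exact (Algebra.IsAlgebraic.isTranscendenceBasis_of_le_trdeg_of_finite (ZMod 2) u
    (by rw [MvPolynomial.trdeg_of_isDomain]; simp)).1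

theorem span2 {K : Type u} [Field K] {W : Type v} [AddCommGroup W] [Module K W] (a b e : W)
    (h : ∀ x y : K, x • a + y • b = 0 → x = 0 ∧ y = 0) (hd : ¬ LinearIndependent K ![a, b, e]) :
    ∃ p q : K, e = p • a + q • b := by
  rw [Fintype.not_linearIndependent_iff] at hd
  obtain ⟨c, hc, i, hi⟩ := hd
  simp only [Fin.sum_univ_three, Matrix.cons_val_zero, Matrix.cons_val_one, Matrix.cons_val] at hc
  by_cases h2 : c 2 = 0
  · rw [h2, zero_smul, add_zero] at hc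
    obtain ⟨h0, h1⟩ := h _ _ hc
    fin_cases i <;> simp_all
  · refine ⟨-(c 0 / c 2), -(c 1 / c 2), ?_⟩
    have : e = (c 2)⁻¹ • (c 2 • e) := by rw [smul_smul, inv_mul_cancel₀ h2, one_smul]
    rw [this, (eq_neg_of_add_eq_zero_right hc : c 2 • e = _)]
    module

theorem span3 {K : Type u} [Field K] {W : Type v} [AddCommGroup W] [Module K W] (a b d e : W)
    (h : ∀ x y z : K, x • a + y • b + z • d = 0 → x = 0 ∧ y = 0 ∧ z = 0)
    (hd : ¬ LinearIndependent K ![a, b, d, e]) :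
    ∃ p q r : K, e = p • a + q • b + r • d := by
  rw [Fintype.not_linearIndependent_iff] at hd
  obtain ⟨c, hc, i, hi⟩ := hd
  simp only [Fin.sum_univ_four, Matrix.cons_val_zero, Matrix.cons_val_one, Matrix.cons_val] at hc
  by_cases h2 : c 3 = 0
  · rw [h2, zero_smul, add_zero] at hc
    obtain ⟨h0, h1, h3⟩ := h _ _ _ hc
    fin_cases i <;> simp_all
  · refine ⟨-(c 0 / c 3), -(c 1 / c 3), -(c 2 / c 3), ?_⟩
    have : e = (c 3)⁻¹ • (c 3 • e) := by rw [smul_smul, inv_mul_cancel₀ h2, one_smul]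
    rw [this, (eq_neg_of_add_eq_zero_right hc : c 3 • e = _)]
    module

theorem det4 {K : Type u} [Field K] (a b c d : Fin 4 → K) :
    (Matrix.of ![a, b, c, d]).det =
      a 0 * (b 1 * (c 2 * d 3 - c 3 * d 2) - b 2 * (c 1 * d 3 - c 3 * d 1)
        + b 3 * (c 1 * d 2 - c 2 * d 1))
      - a 1 * (b 0 * (c 2 * d 3 - c 3 * d 2) - b 2 * (c 0 * d 3 - c 3 * d 0)
        + b 3 * (c 0 * d 2 - c 2 * d 0))
      + a 2 * (b 0 * (c 1 * d 3 - c 3 * d 1) - b 1 * (c 0 * d 3 - c 3 * d 0)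
        + b 3 * (c 0 * d 1 - c 1 * d 0))
      - a 3 * (b 0 * (c 1 * d 2 - c 2 * d 1) - b 1 * (c 0 * d 2 - c 2 * d 0)
        + b 2 * (c 0 * d 1 - c 1 * d 0)) := by
  rw [Matrix.det_succ_row_zero]
  simp [Fin.sum_univ_succ, Matrix.det_fin_three, Fin.succAbove, Matrix.submatrix_apply]
  ring

theorem comp3 {α β : Type*} (f : α → β) (i j k : α) : f ∘ ![i, j, k] = ![f i, f j, f k] := by
  funext x; fin_cases x <;> rfl

theorem comp4 {α β : Type*} (f : α → β) (i j k l : α) :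
    f ∘ ![i, j, k, l] = ![f i, f j, f k, f l] := by
  funext x; fin_cases x <;> rfl

theorem two : (2 : R) = 0 := CharTwo.two_eq_zero

theorem nonrep (K : Type u) [Field K] (W : Type v) [AddCommGroup W] [Module K W]
    (w : Fin 14 → W)
    (h : ∀ (k : ℕ) (t : Fin k → Fin 14), Function.Injective t →
      (AlgebraicIndependent (ZMod 2) (g ∘ t) ↔ LinearIndependent K (w ∘ t))) : False := by
  have h3 : ∀ i j k : Fin 14, Function.Injective ![i, j, k] →
      ¬ AlgebraicIndependent (ZMod 2) ![g i, g j, g k] → ¬ LinearIndependent K ![w i, w j, w k] := by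
    intro i j k hi hd hl
    have := h 3 _ hi
    rw [comp3, comp3] at this
    exact hd (this.mpr hl)
  have h4 : ∀ i j k l : Fin 14, Function.Injective ![i, j, k, l] →
      (AlgebraicIndependent (ZMod 2) ![g i, g j, g k, g l] ↔
        LinearIndependent K ![w i, w j, w k, w l]) := by
    intro i j k l hi
    have := h 4 _ hi
    rwa [comp4, comp4] at this
  have ha : LinearIndependent K ![w 0, w 1, w 2, w 3] :=
    (h4 0 1 2 3 (by decide)).mp (base _ ![1, 1, 1, 1] ![X 0, X 1, X 2, X 3]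
      (by intro i; fin_cases i <;> simp) (by intro i; fin_cases i <;> simp [g]))
  have ha' : ∀ x y z t : K, x • w 0 + y • w 1 + z • w 2 + t • w 3 = 0 →
      x = 0 ∧ y = 0 ∧ z = 0 ∧ t = 0 := by
    intro x y z t hh
    have := Fintype.linearIndependent_iff.mp ha ![x, y, z, t]
      (by simpa [Fin.sum_univ_four] using hh)
    exact ⟨this 0, this 1, this 2, this 3⟩
  have p01 : ∀ x y : K, x • w 0 + y • w 1 = 0 → x = 0 ∧ y = 0 := fun x y hh => by
    have := ha' x y 0 0 (by simpa using hh); tauto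
  have p02 : ∀ x y : K, x • w 0 + y • w 2 = 0 → x = 0 ∧ y = 0 := fun x y hh => by
    have := ha' x 0 y 0 (by simpa using hh); tauto
  have p03 : ∀ x y : K, x • w 0 + y • w 3 = 0 → x = 0 ∧ y = 0 := fun x y hh => by
    have := ha' x 0 0 y (by simpa using hh); tauto
  have p12 : ∀ x y : K, x • w 1 + y • w 2 = 0 → x = 0 ∧ y = 0 := fun x y hh => by
    have := ha' 0 x y 0 (by simpa using hh); tauto
  have p13 : ∀ x y : K, x • w 1 + y • w 3 = 0 → x = 0 ∧ y = 0 := fun x y hh => by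
    have := ha' 0 x 0 y (by simpa using hh); tauto
  have p23 : ∀ x y : K, x • w 2 + y • w 3 = 0 → x = 0 ∧ y = 0 := fun x y hh => by
    have := ha' 0 0 x y (by simpa using hh); tauto
  have p012 : ∀ x y z : K, x • w 0 + y • w 1 + z • w 2 = 0 → x = 0 ∧ y = 0 ∧ z = 0 :=
    fun x y z hh => by
      have := ha' x y z 0 (by simpa using hh); tauto
  obtain ⟨p4, q4, e4⟩ := span2 _ _ (w 4) p01 (h3 0 1 4 (by decide)
    (dep _ (X 0 * X 1 - X 2 ^ 2) ![1, 1, 0] (by simp [g]; ring) (by simp)))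
  obtain ⟨p5, q5, e5⟩ := span2 _ _ (w 5) p02 (h3 0 2 5 (by decide)
    (dep _ (X 0 * X 1 - X 2 ^ 2) ![1, 1, 0] (by simp [g]; ring) (by simp)))
  obtain ⟨p6, q6, e6⟩ := span2 _ _ (w 6) p03 (h3 0 3 6 (by decide)
    (dep _ (X 0 * X 1 - X 2 ^ 2) ![1, 1, 0] (by simp [g]; ring) (by simp)))
  obtain ⟨p7, q7, e7⟩ := span2 _ _ (w 7) p12 (h3 1 2 7 (by decide)
    (dep _ (X 0 * X 1 - X 2 ^ 2) ![1, 1, 0] (by simp [g]; ring) (by simp)))
  obtain ⟨p8, q8, e8⟩ := span2 _ _ (w 8) p13 (h3 1 3 8 (by decide)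
    (dep _ (X 0 * X 1 - X 2 ^ 2) ![1, 1, 0] (by simp [g]; ring) (by simp)))
  obtain ⟨p9, q9, e9⟩ := span2 _ _ (w 9) p23 (h3 2 3 9 (by decide)
    (dep _ (X 0 * X 1 - X 2 ^ 2) ![1, 1, 0] (by simp [g]; ring) (by simp)))
  obtain ⟨p10, q10, e10⟩ := span2 _ _ (w 10) p01 (h3 0 1 10 (by decide)
    (dep _ (X 0 + X 1 - X 2) ![1, 0, 0] (by simp [g]) (by simp)))
  obtain ⟨p11, q11, e11⟩ := span2 _ _ (w 11) p02 (h3 0 2 11 (by decide)
    (dep _ (X 0 + X 1 - X 2) ![1, 0, 0] (by simp [g]) (by simp)))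
  obtain ⟨p12, q12, e12⟩ := span2 _ _ (w 12) p12 (h3 1 2 12 (by decide)
    (dep _ (X 0 + X 1 - X 2) ![1, 0, 0] (by simp [g]) (by simp)))
  obtain ⟨r0, r1, r2, e13⟩ := span3 _ _ _ (w 13) p012 (fun hl =>
    dep _ (X 0 + X 1 + X 2 - X 3) ![1, 0, 0, 0] (by simp [g]) (by simp)
      ((h4 0 1 2 13 (by decide)).mpr hl))
  let c : Fin 14 → Fin 4 → K :=
    ![![1, 0, 0, 0], ![0, 1, 0, 0], ![0, 0, 1, 0], ![0, 0, 0, 1], ![p4, q4, 0, 0], ![p5, 0, q5, 0],
      ![p6, 0, 0, q6], ![0, p7, q7, 0], ![0, p8, 0, q8], ![0, 0, p9, q9], ![p10, q10, 0, 0],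
      ![p11, 0, q11, 0], ![0, p12, q12, 0], ![r0, r1, r2, 0]]
  let T : (Fin 4 → K) →ₗ[K] W := Fintype.linearCombination K ![w 0, w 1, w 2, w 3]
  have hT : LinearMap.ker T = ⊥ :=
    LinearMap.ker_eq_bot.mpr ha.fintypeLinearCombination_injective
  have hw : ∀ i, w i = T (c i) := by
    intro i
    fin_cases i <;>
      simp [T, c, Fintype.linearCombination_apply, Fin.sum_univ_four, e4, e5, e6, e7, e8, e9,
        e10, e11, e12, e13]
  have hd : ∀ i j k l : Fin 14, Function.Injective ![i, j, k, l] →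
      (AlgebraicIndependent (ZMod 2) ![g i, g j, g k, g l] ↔
        (Matrix.of ![c i, c j, c k, c l]).det ≠ 0) := by
    intro i j k l hi
    rw [h4 i j k l hi, hw i, hw j, hw k, hw l, ← isUnit_iff_ne_zero,
      ← Matrix.isUnit_iff_isUnit_det, ← Matrix.linearIndependent_rows_iff_isUnit,
      ← T.linearIndependent_iff hT]
    rw [← comp4 T]
    rfl
  have hz : ∀ i j k l : Fin 14, Function.Injective ![i, j, k, l] →
      ¬ AlgebraicIndependent (ZMod 2) ![g i, g j, g k, g l] →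
        (Matrix.of ![c i, c j, c k, c l]).det = 0 := by
    intro i j k l hi hn
    by_contra hne
    exact hn ((hd i j k l hi).mpr hne)
  -- the Fano part forces characteristic two
  have n0 := (hd 13 1 2 3 (by decide)).mp (base _ ![1, 1, 1, 1] ![X 0 - X 1 - X 2, X 1, X 2, X 3]
    (by intro i; fin_cases i <;> simp) (by intro i; fin_cases i <;> simp [g]; ring))
  have n1 := (hd 0 13 2 3 (by decide)).mp (base _ ![1, 1, 1, 1] ![X 0, X 1 - X 0 - X 2, X 2, X 3]
    (by intro i; fin_cases i <;> simp) (by intro i; fin_cases i <;> simp [g]; ring))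
  have n2 := (hd 0 1 13 3 (by decide)).mp (base _ ![1, 1, 1, 1] ![X 0, X 1, X 2 - X 0 - X 1, X 3]
    (by intro i; fin_cases i <;> simp) (by intro i; fin_cases i <;> simp [g]; ring))
  have n10 := (hd 10 1 2 3 (by decide)).mp (base _ ![1, 1, 1, 1] ![X 0 - X 1, X 1, X 2, X 3]
    (by intro i; fin_cases i <;> simp) (by intro i; fin_cases i <;> simp [g]))
  have n11 := (hd 11 1 2 3 (by decide)).mp (base _ ![1, 1, 1, 1] ![X 0 - X 2, X 1, X 2, X 3]
    (by intro i; fin_cases i <;> simp) (by intro i; fin_cases i <;> simp [g]))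
  have n12 := (hd 0 12 2 3 (by decide)).mp (base _ ![1, 1, 1, 1] ![X 0, X 1 - X 2, X 2, X 3]
    (by intro i; fin_cases i <;> simp) (by intro i; fin_cases i <;> simp [g]))
  have z10 := hz 10 13 2 3 (by decide)
    (dep _ (X 0 + X 2 - X 1) ![1, 0, 0, 0] (by simp [g]) (by simp))
  have z11 := hz 11 13 1 3 (by decide)
    (dep _ (X 0 + X 2 - X 1) ![1, 0, 0, 0] (by simp [g]; ring) (by simp))
  have z12 := hz 12 13 0 3 (by decide)
    (dep _ (X 0 + X 2 - X 1) ![1, 0, 0, 0] (by simp [g]; ring) (by simp))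
  have zf := hz 10 11 12 3 (by decide)
    (dep _ (X 0 + X 1 + X 2) ![1, 0, 0, 0]
      (by simp [g]; linear_combination (X 0 ^ 2 + X 1 ^ 2 + X 2 ^ 2 : R) * two) (by simp))
  -- the monomial part forbids it
  have nt := (hd 4 5 7 3 (by decide)).mp (base _ ![X 2, X 1, X 0, 1]
    ![X 0 * X 1, X 0 * X 2, X 1 * X 2, X 3]
    (by intro i; fin_cases i <;> simp [g]) (by intro i; fin_cases i <;> simp [g] <;> ring))
  have np := (hd 6 8 9 3 (by decide)).mp (base _ ![X 3, X 3, X 3, 1]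
    ![X 0 ^ 2, X 1 ^ 2, X 2 ^ 2, X 3]
    (by intro i; fin_cases i <;> simp [g]) (by intro i; fin_cases i <;> simp [g] <;> ring))
  have n6 := (hd 0 1 2 6 (by decide)).mp (base _ ![1, 1, 1, X 0] ![X 0, X 1, X 2, X 3 ^ 2]
    (by intro i; fin_cases i <;> simp [g]) (by intro i; fin_cases i <;> simp [g]; ring))
  have n8 := (hd 0 1 2 8 (by decide)).mp (base _ ![1, 1, 1, X 1] ![X 0, X 1, X 2, X 3 ^ 2]
    (by intro i; fin_cases i <;> simp [g]) (by intro i; fin_cases i <;> simp [g]; ring))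
  have n9 := (hd 0 1 2 9 (by decide)).mp (base _ ![1, 1, 1, X 2] ![X 0, X 1, X 2, X 3 ^ 2]
    (by intro i; fin_cases i <;> simp [g]) (by intro i; fin_cases i <;> simp [g]; ring))
  have c1 := hz 4 7 9 6 (by decide)
    (dep _ (X 0 * X 2 - X 1 * X 3) ![1, 0, 1, 0] (by simp [g]; ring) (by simp))
  have c2 := hz 4 8 9 5 (by decide)
    (dep _ (X 0 * X 2 - X 1 * X 3) ![1, 0, 1, 0] (by simp [g]; ring) (by simp))
  have c3 := hz 5 7 8 6 (by decide)
    (dep _ (X 0 * X 2 - X 1 * X 3) ![1, 0, 1, 0] (by simp [g]; ring) (by simp))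
  rw [det4] at n0 n1 n2 n10 n11 n12 z10 z11 z12 zf nt np n6 n8 n9 c1 c2 c3
  simp only [c, Matrix.cons_val_zero, Matrix.cons_val_one, Matrix.cons_val, mul_zero, zero_mul,
    sub_zero, zero_sub, add_zero, zero_add, mul_one, one_mul, sub_self, neg_zero, mul_neg,
    neg_neg] at n0 n1 n2 n10 n11 n12 z10 z11 z12 zf nt np n6 n8 n9 c1 c2 c3
  have h2 : (2 : K) = 0 := by
    have : 2 * (p10 * p11 * p12 * r1 * r2) = 0 := by
      linear_combination (-r0 * r1) * zf - r1 * p10 * p12 * z11 + p11 * p12 * r2 * z10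
        + p11 * q10 * r0 * z12
    exact (mul_eq_zero.mp this).resolve_right (by simp [n1, n2, n10, n11, n12])
  have k1 : p4 * p7 * p9 * q6 = q4 * q7 * q9 * p6 := by linear_combination c1
  have k2 : p4 * p8 * q9 * q5 = q4 * q8 * p9 * p5 := by linear_combination -c2
  have k3 : q5 * p7 * q8 * p6 = p5 * q7 * p8 * q6 := by linear_combination c3
  have k4 : (p4 * p7 * p9 * q6) * (p4 * p8 * q9 * q5) * (q5 * p7 * q8 * p6)
      = (q4 * q7 * q9 * p6) * (q4 * q8 * p9 * p5) * (p5 * q7 * p8 * q6) := by rw [k1, k2, k3]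
  have k5 : (-(p4 * (q5 * p7)) - q4 * (p5 * q7)) ^ 2 * (p6 * (p8 * p9) * (q6 * q8 * q9)) = 0 := by
    linear_combination k4 + (p4 * q5 * p7 * (q4 * p5 * q7) + (q4 * p5 * q7) ^ 2)
      * (p6 * (p8 * p9) * (q6 * q8 * q9)) * h2
  exact mul_ne_zero (pow_ne_zero 2 nt) (mul_ne_zero np (mul_ne_zero (mul_ne_zero n6 n8) n9)) k5

/-- Degree-two forms over a field whose algebraic matroid is not representable over any field. -/
theorem result : ∃ (F : Type) (_ : Field F) (m N : ℕ) (g : Fin N → MvPolynomial (Fin m) F),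
    (∀ i, g i ≠ 0 ∧ (g i).IsHomogeneous 2) ∧
    ∀ (K : Type u) [Field K] (W : Type v) [AddCommGroup W] [Module K W] (w : Fin N → W),
      ¬ ∀ S : Set (Fin N), AlgebraicIndependent F (fun i : S => g i) ↔
        LinearIndependent K (fun i : S => w i) := by
  refine ⟨ZMod 2, inferInstance, 4, 14, g, ?_, ?_⟩
  · have hX : ∀ i : Fin 4, (X i : R).IsHomogeneous 1 := fun i => isHomogeneous_X _ i
    have h2 : ∀ i : Fin 4, (X i ^ 2 : R).IsHomogeneous 2 := fun i => isHomogeneous_X_pow i 2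
    have h11 : ∀ i j : Fin 4, (X i * X j : R).IsHomogeneous 2 := fun i j => (hX i).mul (hX j)
    have hne : ∀ (p : R) (pt : Fin 4 → ZMod 2), eval pt p ≠ 0 → p ≠ 0 := by
      rintro p pt h rfl
      simp at h
    have hx : ∀ i : Fin 4, (X i : R) ≠ 0 := fun i => X_ne_zero i
    intro i
    fin_cases i
    · exact ⟨pow_ne_zero 2 (hx 0), h2 0⟩
    · exact ⟨pow_ne_zero 2 (hx 1), h2 1⟩
    · exact ⟨pow_ne_zero 2 (hx 2), h2 2⟩
    · exact ⟨pow_ne_zero 2 (hx 3), h2 3⟩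
    · exact ⟨mul_ne_zero (hx 0) (hx 1), h11 0 1⟩
    · exact ⟨mul_ne_zero (hx 0) (hx 2), h11 0 2⟩
    · exact ⟨mul_ne_zero (hx 0) (hx 3), h11 0 3⟩
    · exact ⟨mul_ne_zero (hx 1) (hx 2), h11 1 2⟩
    · exact ⟨mul_ne_zero (hx 1) (hx 3), h11 1 3⟩
    · exact ⟨mul_ne_zero (hx 2) (hx 3), h11 2 3⟩
    · exact ⟨hne _ ![1, 0, 0, 0] (by simp [g]), (h2 0).add (h2 1)⟩
    · exact ⟨hne _ ![1, 0, 0, 0] (by simp [g]), (h2 0).add (h2 2)⟩
    · exact ⟨hne _ ![0, 1, 0, 0] (by simp [g]), (h2 1).add (h2 2)⟩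
    · exact ⟨hne _ ![1, 0, 0, 0] (by simp [g]), ((h2 0).add (h2 1)).add (h2 2)⟩
  · intro K _ W _ _ w h
    refine nonrep K W w fun k t ht => ?_
    exact ((algebraicIndependent_equiv (Equiv.ofInjective t ht)
      (f := fun i : Set.range t => g i)).trans (h _)).trans
      (linearIndependent_equiv (Equiv.ofInjective t ht) (f := fun i : Set.range t => w i)).symm

end Pool.Agent.Results.MP_188fab_co.Q2
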